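import Pool.Agent.V5helper79.PQ.Loc
import Pool.Agent.V5helper38.PQ.LOC
import Pool.Agent.V5helper75.PQ.AGR
import Pool.Agent.V5helper43.PQ.Conn

/-!
# Project PQ: polyhedra with vertices of degree at most four are rigid
-/

set_option autoImplicit false

namespace Pool.Agent.V5helper79.PQ

open Pool.Agent.R118.PM Filter Topology
open Pool.Agent.V5helper79.PP.Fam (lin lin_sub)
open Pool.Agent.V5helper79.PP.Conv (normals_span Glued glued_three glued_agree face_frontier frontier_pre)
open scoped RealInnerProductSpace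

variable {ι : Type} [Fintype ι] {P : Pool.Agent.R118.PM.Poly ι}

/-- Every vertex of the polyhedron `P` lies in exactly three or exactly four panels. -/
def DegreesThreeFour (P : Pool.Agent.R118.PM.Poly ι) : Prop :=
  ∀ v ∈ P.body.extremePoints ℝ, {i | v ∈ P.face i}.ncard = 3 ∨ ∃ x q, Quad P v x q

/-- The panel `i` is a triangle: it contains three vertices `v 0, v 1, v 2`, and there are panels `j 0, j 1, j 2` such
that `v k` lies in `j l` exactly for `l ≠ k`. -/
def HasTriangle (P : Pool.Agent.R118.PM.Poly ι) : Prop :=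
  ∃ (i : ι) (j : Fin 3 → ι) (v : Fin 3 → E3), (∀ k, v k ∈ P.body.extremePoints ℝ ∧ v k ∈ P.face i) ∧
    ∀ k l, v k ∈ P.face (j l) ↔ k ≠ l

/-- if panels with a common vertex are related then all panels are related -/
theorem rel_all (hP : IsPolyhedron P) {R : ι → ι → Prop} (hr : ∀ i, R i i) (ht : ∀ i j k, R i j → R j k → R i k)
    (hR : ∀ v ∈ P.body.extremePoints ℝ, ∀ l m, v ∈ P.face l → v ∈ P.face m → R l m) (i j : ι) : R i j := by
  classical
  by_contra hij
  obtain ⟨SA, hSA⟩ : ∃ SA : Set E3, SA = ⋃ l ∈ {l | R i l}, P.face l := ⟨_, rfl⟩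
  obtain ⟨SB, hSB⟩ : ∃ SB : Set E3, SB = ⋃ l ∈ {l | ¬ R i l}, P.face l := ⟨_, rfl⟩
  have clA : IsClosed SA := by
    rw [hSA]
    exact Set.Finite.isClosed_biUnion (Set.toFinite _) fun l _ => face_closed P l
  have clB : IsClosed SB := by
    rw [hSB]
    exact Set.Finite.isClosed_biUnion (Set.toFinite _) fun l _ => face_closed P l
  have memA : ∀ w, w ∈ SA ↔ ∃ l, R i l ∧ w ∈ P.face l := by
    intro w
    rw [hSA]
    simp only [Set.mem_iUnion, Set.mem_ofPred_eq, exists_prop]
  have memB : ∀ w, w ∈ SB ↔ ∃ l, ¬ R i l ∧ w ∈ P.face l := by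
    intro w
    rw [hSB]
    simp only [Set.mem_iUnion, Set.mem_ofPred_eq, exists_prop]
  have cover : frontier P.body ⊆ SA ∪ SB := by
    intro w hw
    have hwQ : w ∈ P.body := (body_closed P).frontier_subset hw
    have h5 : ∃ l, w ∈ P.face l := by
      by_contra h
      push Not at h
      have hopen : IsOpen {w : E3 | ∀ i, inner ℝ (P.n i) w < P.b i} := by
        have : {w : E3 | ∀ i, inner ℝ (P.n i) w < P.b i} = ⋂ i, {w : E3 | inner ℝ (P.n i) w < P.b i} := by
          ext; simp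
        rw [this]
        exact isOpen_iInter_of_finite fun i => isOpen_lt (by fun_prop) continuous_const
      exact hw.2 (interior_maximal (fun z hz i => (hz i).le) hopen
        fun l => lt_of_le_of_ne (hwQ l) fun he => h l ⟨hwQ, he⟩)
    obtain ⟨l, hl⟩ := h5
    by_cases hg : R i l
    · exact Or.inl ((memA w).2 ⟨l, hg, hl⟩)
    · exact Or.inr ((memB w).2 ⟨l, hg, hl⟩)
  have hne : ∀ l, (P.face l).Nonempty := by
    intro l
    by_contra h
    rw [Set.not_nonempty_iff_eq_empty] at h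
    have h1 := hP.dim l
    rw [h, vectorSpan_empty, finrank_bot] at h1
    omega
  have hpre := frontier_pre hP
  rw [isPreconnected_closed_iff] at hpre
  obtain ⟨x, hx⟩ := hne i
  obtain ⟨y, hy⟩ := hne j
  obtain ⟨w, hw1, hw2, hw3⟩ := hpre SA SB clA clB cover
    ⟨x, face_frontier hP i hx, (memA x).2 ⟨i, hr _, hx⟩⟩
    ⟨y, face_frontier hP j hy, (memB y).2 ⟨j, hij, hy⟩⟩
  obtain ⟨l, hl1, hl2⟩ := (memA w).1 hw2
  obtain ⟨m, hm1, hm2⟩ := (memB w).1 hw3
  have hcl : IsClosed (P.face l ∩ P.face m) := (face_closed P l).inter (face_closed P m)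
  have hcpt : IsCompact (P.face l ∩ P.face m) :=
    Metric.isCompact_of_isClosed_isBounded hcl
      (hP.bounded.subset (Set.inter_subset_left.trans (face_sub P l)))
  obtain ⟨v, hv⟩ := hcpt.extremePoints_nonempty ⟨w, hl2, hm2⟩
  have hvb : v ∈ P.body.extremePoints ℝ :=
    ((face_extreme P l).inter (face_extreme P m)).extremePoints_subset_extremePoints hv
  exact hm1 (ht _ _ _ hl1 (hR v hvb l m hv.1.1 hv.1.2))


/-- panels with a common vertex of degree three are glued -/
theorem glued_deg3 (hP : IsPolyhedron P) {v : E3} (hv : v ∈ P.body.extremePoints ℝ)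
    (hS : {i | v ∈ P.face i}.ncard = 3) {l m : ι} (hl : v ∈ P.face l) (hm : v ∈ P.face m) : Glued P l m := by
  by_cases hlm : l = m
  · rw [hlm]; exact Glued.refl _
  obtain ⟨i, j, k, hij, hik, hjk, hset⟩ := Set.ncard_eq_three.1 hS
  have hmem : ∀ o, v ∈ P.face o ↔ o = i ∨ o = j ∨ o = k := by
    intro o
    have h := Set.ext_iff.1 hset o
    simpa using h
  have hi := (hmem i).2 (Or.inl rfl)
  have hj := (hmem j).2 (Or.inr (Or.inl rfl))
  have hk := (hmem k).2 (Or.inr (Or.inr rfl))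
  have gij : Glued P i j := glued_three hP hv hij hik hjk hi hj hk fun o ho => (hmem o).1 ho
  have gjk : Glued P j k := glued_three hP hv hjk hij.symm hik.symm hj hk hi fun o ho => by
    rcases (hmem o).1 ho with h | h | h
    · exact Or.inr (Or.inr h)
    · exact Or.inl h
    · exact Or.inr (Or.inl h)
  have g : ∀ o, v ∈ P.face o → Glued P i o := by
    intro o ho
    rcases (hmem o).1 ho with rfl | rfl | rfl
    · exact Glued.refl _
    · exact gij
    · exact Glued.trans _ _ _ gij gjk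
  exact Glued.trans _ _ _ (Glued.symm _ _ (g l hl)) (g m hm)

theorem verts_finite (P : Pool.Agent.R118.PM.Poly ι) : (P.body.extremePoints ℝ).Finite := by
  have hinj : Set.InjOn (fun v => {i : ι | v ∈ P.face i}) (P.body.extremePoints ℝ) := by
    intro v hv w hw h
    have h1 : w - v = 0 := by
      refine normals_span hv fun l hl => ?_
      have hl2 : w ∈ P.face l := by
        have : l ∈ {i : ι | v ∈ P.face i} := hl
        rw [show {i : ι | v ∈ P.face i} = {i : ι | w ∈ P.face i} from h] at this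
        exact this
      show ⟪P.n l, w - v⟫ = 0
      rw [inner_sub_right, hl.2, hl2.2, sub_self]
    exact (sub_eq_zero.1 h1).symm
  exact Set.Finite.of_finite_image (Set.toFinite _) hinj

variable {A : ι → unitInterval → (E3 ≃ᵢ E3)} {t0 : unitInterval}

theorem loc_all (hP : IsPolyhedron P) (hD : DegreesThreeFour P)
    (hS : (∃ v ∈ P.body.extremePoints ℝ, {i | v ∈ P.face i}.ncard = 3) ∨ HasTriangle P) (hA : Fam P A)
    (hgl : ∀ i j, Glued P i j → ∀ z t, A i t z = A j t z) (h0 : ∀ i j z, A i t0 z = A j t0 z) :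
    ∀ᶠ t in 𝓝 t0, ∀ i j z, A i t z = A j t z := by
  have h1 := edge_agree Pool.Agent.V5helper75.PQ.t_AGR hP hA h0
  have h2 := (Filter.eventually_all_finite (verts_finite P)).2 (fun v (hv : v ∈ P.body.extremePoints ℝ) =>
    (show ∀ᶠ t in 𝓝 t0, (∃ x q, Quad P v x q) → (∀ i j m, i ≠ j → i ≠ m → j ≠ m → v ∈ P.face i → v ∈ P.face j →
      v ∈ P.face m →
      ∀ w ∈ P.face i, w ∈ P.face j → w ≠ v → ∀ u ∈ P.face i, u ∈ P.face m → u ≠ v →
      ∀ p ∈ P.face i, p ∉ P.face j → ∀ p2 ∈ P.face j, p2 ∉ P.face i →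
      ∀ p' ∈ P.face i, p' ∉ P.face m → ∀ p2' ∈ P.face m, p2' ∉ P.face i →
      SignType.sign (dd (A i t) (A j t) p p2) = - SignType.sign (dd (A i t) (A m t) p' p2')) from by
      by_cases hq : ∃ x q, Quad P v x q
      · obtain ⟨x, q, hxq⟩ := hq
        filter_upwards [quad_sign Pool.Agent.V5helper38.PQ.t_LOC hP hxq hA h0] with t ht _ using ht
      · exact Eventually.of_forall fun t h => absurd h hq))
  filter_upwards [h1, h2] with t e1 e2
  obtain ⟨G, hG⟩ : ∃ G : Set E3, G = {v | ∀ i j, v ∈ P.face i → v ∈ P.face j → ∀ z, A i t z = A j t z} := ⟨_, rfl⟩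
  have memG : ∀ v, v ∈ G ↔ ∀ i j, v ∈ P.face i → v ∈ P.face j → ∀ z, A i t z = A j t z := by
    intro v; rw [hG]; rfl
  have three : ∀ w ∈ P.body.extremePoints ℝ, {i | w ∈ P.face i}.ncard = 3 → w ∈ G := by
    intro w hw h3
    rw [memG]
    intro i j hi hj z
    exact hgl i j (glued_deg3 hP hw h3 hi hj) z t
  have ha : ∀ w ∈ P.body.extremePoints ℝ, ∀ i j, i ≠ j → w ∈ P.face i → w ∈ P.face j →
      (∃ u, u ∈ P.face i ∧ u ∈ P.face j ∧ u ≠ w) → (∀ z, A i t z = A j t z) → w ∈ G := by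
    intro w hw i j hij hi hj hu hz
    rcases hD w hw with h3 | ⟨x, q, hxq⟩
    · exact three w hw h3
    have hs := e2 w hw ⟨x, q, hxq⟩
    have xv : ∀ k, w ∈ P.face (x k) := fun k => (hxq.mem _).2 ⟨k, rfl⟩
    have xne : ∀ a b, x a = x b → a = b := by
      intro a b hab
      have h5 : ∀ k, (a = k ∨ a = k + 1) ↔ (b = k ∨ b = k + 1) := fun k => by
        rw [← hxq.edge k a, ← hxq.edge k b, hab]
      exact (by decide : ∀ a b : Fin 4, (∀ k, (a = k ∨ a = k + 1) ↔ (b = k ∨ b = k + 1)) → a = b) a b h5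
    have qne : ∀ k, q k ≠ w := by
      intro k hk
      have h5 : q k ∈ P.face (x (k + 2)) := by rw [hk]; exact xv _
      have h6 := (hxq.edge k (k + 2)).1 h5
      exact (by decide : ∀ k : Fin 4, ¬ (k + 2 = k ∨ k + 2 = k + 1)) k h6
    have step : ∀ a, (∀ z, A (x a) t z = A (x (a + 1)) t z) → ∀ z, A (x (a + 3)) t z = A (x (a + 3 + 1)) t z := by
      intro a hE z
      have a4 : a + 3 + 1 = a := (by decide : ∀ a : Fin 4, a + 3 + 1 = a) a
      have n1 : x a ≠ x (a + 1) := fun h => (by decide : ∀ a : Fin 4, ¬ (a = a + 1)) a (xne _ _ h)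
      have n2 : x a ≠ x (a + 3) := fun h => (by decide : ∀ a : Fin 4, ¬ (a = a + 3)) a (xne _ _ h)
      have n3 : x (a + 1) ≠ x (a + 3) := fun h => (by decide : ∀ a : Fin 4, ¬ (a + 1 = a + 3)) a (xne _ _ h)
      obtain ⟨p, hp, hp'⟩ := exists_off hP n1
      obtain ⟨p2, hp2, hp2'⟩ := exists_off hP n1.symm
      obtain ⟨r, hr, hr'⟩ := exists_off hP n2
      obtain ⟨r2, hr2, hr2'⟩ := exists_off hP n2.symm
      have hA' : A (x a) t = A (x (a + 1)) t := IsometryEquiv.ext hE
      have h7 := hs (x a) (x (a + 1)) (x (a + 3)) n1 n2 n3 (xv _) (xv _) (xv _) (q a)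
        ((hxq.edge a a).2 (Or.inl rfl)) ((hxq.edge a (a + 1)).2 (Or.inr rfl)) (qne a) (q (a + 3))
        ((hxq.edge (a + 3) a).2 (Or.inr a4.symm)) ((hxq.edge (a + 3) (a + 3)).2 (Or.inl rfl)) (qne _) p hp hp' p2 hp2
        hp2' r hr hr' r2 hr2 hr2'
      rw [hA', dd_self, sign_zero] at h7
      have h8 : SignType.sign (dd (A (x (a + 1)) t) (A (x (a + 3)) t) r r2) = 0 :=
        (by decide : ∀ s : SignType, 0 = - s → s = 0) _ h7
      rw [← hA'] at h8
      rw [a4]
      exact (e1 (x a) (x (a + 3)) n2 ⟨w, ⟨xv _, xv _⟩, q (a + 3), ⟨(hxq.edge (a + 3) a).2 (Or.inr a4.symm),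
        (hxq.edge (a + 3) (a + 3)).2 (Or.inl rfl)⟩, (qne _).symm⟩ r hr hr' r2 hr2 hr2' h8 z).symm
    have allE : (∃ a, ∀ z, A (x a) t z = A (x (a + 1)) t z) → ∀ b z, A (x b) t z = A (x (b + 1)) t z := by
      rintro ⟨a, hE⟩
      have s1 := step a hE
      have s2 := step _ s1
      have s3 := step _ s2
      intro b
      have hb : b = a ∨ b = a + 3 ∨ b = a + 3 + 3 ∨ b = a + 3 + 3 + 3 :=
        (by decide : ∀ a b : Fin 4, b = a ∨ b = a + 3 ∨ b = a + 3 + 3 ∨ b = a + 3 + 3 + 3) a b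
      rcases hb with h | h | h | h
      · rw [h]; exact hE
      · rw [h]; exact s1
      · rw [h]; exact s2
      · rw [h]; exact s3
    have ex : ∃ a, ∀ z, A (x a) t z = A (x (a + 1)) t z := by
      obtain ⟨a, ha⟩ := (hxq.mem i).1 hi
      obtain ⟨b, hb⟩ := (hxq.mem j).1 hj
      obtain ⟨u, hui, huj, huw⟩ := hu
      have hab : b = a ∨ b = a + 1 ∨ b = a + 2 ∨ b = a + 3 :=
        (by decide : ∀ a b : Fin 4, b = a ∨ b = a + 1 ∨ b = a + 2 ∨ b = a + 3) a b
      rcases hab with h | h | h | h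
      · rw [h, ha] at hb
        exact absurd hb hij
      · rw [h] at hb
        exact ⟨a, fun z => by rw [ha, hb]; exact hz z⟩
      · exfalso
        apply huw
        refine (hxq.rotn a).opp0 (w := u) ?_ ?_
        · show u ∈ P.face (x (0 + a))
          rw [zero_add, ha]; exact hui
        · show u ∈ P.face (x (2 + a))
          rw [add_comm, ← h, hb]; exact huj
      · rw [h] at hb
        refine ⟨a + 3, fun z => ?_⟩
        rw [(by decide : ∀ a : Fin 4, a + 3 + 1 = a) a, ha, hb]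
        exact (hz z).symm
    have hall := allE ex
    rw [memG]
    intro k l hk hl z
    obtain ⟨a, ha⟩ := (hxq.mem k).1 hk
    obtain ⟨b, hb⟩ := (hxq.mem l).1 hl
    have h9 : ∀ a z, A (x a) t z = A (x 0) t z := by
      intro a z
      have g3 : A (x 3) t z = A (x 0) t z := hall 3 z
      have g2 : A (x 2) t z = A (x 3) t z := hall 2 z
      have g1 : A (x 1) t z = A (x 2) t z := hall 1 z
      have ha4 : a = 0 ∨ a = 1 ∨ a = 2 ∨ a = 3 :=
        (by decide : ∀ b : Fin 4, b = 0 ∨ b = 1 ∨ b = 2 ∨ b = 3) a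
      rcases ha4 with rfl | rfl | rfl | rfl
      · rfl
      · rw [g1, g2, g3]
      · rw [g2, g3]
      · exact g3
    rw [← ha, ← hb, h9 a, h9 b]
  have hcon := Pool.Agent.V5helper43.PQ.t_CON P hP G (fun v hv w hw i j hij hvij hwij hvG => by
    by_cases hvw : v = w
    · rw [← hvw]; exact hvG
    · exact ha w hw i j hij hwij.1 hwij.2 ⟨v, hvij.1, hvij.2, hvw⟩ ((memG v).1 hvG i j hvij.1 hvij.2)) (by
    rcases hS with ⟨v, hv, h3⟩ | ⟨i, j, v, hv, hj⟩
    · exact ⟨v, hv, three v hv h3⟩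
    by_cases hex : ∃ k, {i | v k ∈ P.face i}.ncard = 3
    · obtain ⟨k, hk⟩ := hex
      exact ⟨v k, (hv k).1, three _ (hv k).1 hk⟩
    push Not at hex
    have hquad : ∀ k, ∃ x q, Quad P (v k) x q := fun k => (hD _ (hv k).1).resolve_left (hex k)
    have jne : ∀ l, i ≠ j l := by
      intro l h
      have h5 := (hv l).2
      rw [h] at h5
      exact (hj l l).1 h5 rfl
    have jinj : ∀ l m, l ≠ m → j l ≠ j m := by
      intro l m hlm h
      have h5 := (hj l m).2 hlm
      rw [← h] at h5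
      exact (hj l l).1 h5 rfl
    have vinj : ∀ l m, l ≠ m → v l ≠ v m := by
      intro l m hlm h
      have h5 := (hj l m).2 hlm
      rw [h] at h5
      exact (hj m m).1 h5 rfl
    have hoff : ∀ l, v l ∉ P.face (j l) := fun l h => (hj l l).1 h rfl
    choose r hr hr' using fun l => exists_off hP (jne l).symm
    have key : ∀ k l m, k ≠ l → k ≠ m → l ≠ m → SignType.sign (dd (A i t) (A (j l) t) (v l) (r l)) =
        - SignType.sign (dd (A i t) (A (j m) t) (v m) (r m)) := by
      intro k l m hkl hkm hlm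
      exact e2 (v k) (hv k).1 (hquad k) i (j l) (j m) (jne l) (jne m) (jinj l m hlm) (hv k).2 ((hj k l).2 hkl)
        ((hj k m).2 hkm) (v m) (hv m).2 ((hj m l).2 hlm.symm) (vinj m k hkm.symm) (v l) (hv l).2 ((hj l m).2 hlm)
        (vinj l k hkl.symm) (v l) (hv l).2 (hoff l) (r l) (hr l) (hr' l) (v m) (hv m).2 (hoff m) (r m) (hr m) (hr' m)
    have k1 := key 0 1 2 (by decide) (by decide) (by decide)
    have k2 := key 1 2 0 (by decide) (by decide) (by decide)
    have k3 := key 2 0 1 (by decide) (by decide) (by decide)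
    have hz : SignType.sign (dd (A i t) (A (j 1) t) (v 1) (r 1)) = 0 := by
      rw [k2, k3, neg_neg] at k1
      exact (by decide : ∀ s : SignType, s = - s → s = 0) _ k1
    have hzz := e1 i (j 1) (jne 1) ⟨v 0, ⟨(hv 0).2, (hj 0 1).2 (by decide)⟩, v 2, ⟨(hv 2).2, (hj 2 1).2 (by decide)⟩,
      vinj 0 2 (by decide)⟩ (v 1) (hv 1).2 (hoff 1) (r 1) (hr 1) (hr' 1) hz
    exact ⟨v 0, (hv 0).1, ha (v 0) (hv 0).1 i (j 1) (jne 1) (hv 0).2 ((hj 0 1).2 (by decide))
      ⟨v 2, (hv 2).2, (hj 2 1).2 (by decide), vinj 2 0 (by decide)⟩ hzz⟩)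
  intro i j
  exact rel_all hP (R := fun i j => ∀ z, A i t z = A j t z) (fun i z => rfl) (fun i j k h1 h2 z => (h1 z).trans (h2 z))
    (fun v hv l m hl hm => (memG v).1 (hcon v hv) l m hl hm) i j

/-- polyhedra with vertices of degrees three and four which have a vertex of degree three or a triangular panel -/
theorem rigid_three_four (hP : IsPolyhedron P) (hD : DegreesThreeFour P)
    (hS : (∃ v ∈ P.body.extremePoints ℝ, {i | v ∈ P.face i}.ncard = 3) ∨ HasTriangle P)
    {M : Set (Set Pool.Agent.R118.PM.E3)} (hM : IsMatching P M) : Rigid P M := by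
  intro g hg t ht
  have hFam : Fam P (fun i (t : unitInterval) => g i t) :=
    ⟨fun i z => continuousOn_iff_continuous_domRestrict.1 (hg.cont i z), fun i j z t hi hj =>
      all_hinges hP hM hg t.2 i j z ⟨hi, hj⟩⟩
  have hclopen : IsClopen {t : unitInterval | ∀ i j z, g i t z = g j t z} := by
    constructor
    · have : {t : unitInterval | ∀ i j z, g i t z = g j t z} =
          ⋂ i, ⋂ j, ⋂ z, {t : unitInterval | g i t z = g j t z} := by ext; simp
      rw [this]
      exact isClosed_iInter fun i => isClosed_iInter fun j => isClosed_iInter fun z =>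
        isClosed_eq (hFam.cont i z) (hFam.cont j z)
    · rw [isOpen_iff_mem_nhds]
      intro s hs
      exact loc_all hP hD hS hFam (fun i j h z t => glued_agree hP hM hg h z t) hs
  have huniv := hclopen.eq_univ ⟨0, fun i j z => by
    show g i ((0 : unitInterval) : ℝ) z = g j ((0 : unitInterval) : ℝ) z
    rw [show ((0 : unitInterval) : ℝ) = 0 from rfl, hg.start, hg.start]⟩
  have hall : ∀ t : unitInterval, ∀ i j z, g i t z = g j t z := fun t => by
    have : t ∈ {t : unitInterval | ∀ i j z, g i t z = g j t z} := by rw [huniv]; trivial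
    exact this
  rcases isEmpty_or_nonempty ι with he | ⟨⟨i0⟩⟩
  · exact ⟨IsometryEquiv.refl _, fun i => he.elim i⟩
  · exact ⟨g i0 t, fun i x _ => hall ⟨t, ht⟩ i i0 x⟩

end Pool.Agent.V5helper79.PQ
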