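import Pool.Agent.V5helper79.PQ.Stm
import Pool.Agent.V5helper79.PP.Simple

/-!
# Project PQ: geometry at the vertices of degree four
-/

set_option autoImplicit false

namespace Pool.Agent.V5helper79.PQ

open Pool.Agent.R118.PM Filter Topology
open Pool.Agent.V5helper79.PP.Fam (lin lin_sub)
open Pool.Agent.V5helper79.PP.Conv (normals_span)
open scoped RealInnerProductSpace

variable {ι : Type} [Fintype ι]

/-- The vertex `v` lies in exactly the four panels `x 0, x 1, x 2, x 3`, and among these the point `q k` lies in exactly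
`x k` and `x (k + 1)` (numbers modulo four). -/
structure Quad (P : Pool.Agent.R118.PM.Poly ι) (v : E3) (x : Fin 4 → ι) (q : Fin 4 → E3) : Prop where
  mem : ∀ i, v ∈ P.face i ↔ ∃ k, x k = i
  edge : ∀ k l, q k ∈ P.face (x l) ↔ (l = k ∨ l = k + 1)

variable {P : Pool.Agent.R118.PM.Poly ι} {v : E3} {x : Fin 4 → ι} {q : Fin 4 → E3}

theorem Quad.rot (h : Quad P v x q) : Quad P v (fun k => x (k + 1)) (fun k => q (k + 1)) := by
  refine ⟨fun i => ?_, fun k l => ?_⟩
  · rw [h.mem]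
    constructor
    · rintro ⟨k, hk⟩
      exact ⟨k - 1, by rw [sub_add_cancel]; exact hk⟩
    · rintro ⟨k, hk⟩
      exact ⟨k + 1, hk⟩
  · rw [h.edge]
    revert k l
    decide

theorem Quad.zero (h : Quad P v x q) {k l : Fin 4} (hl : l = k ∨ l = k + 1) : ⟪P.n (x l), q k - v⟫ = 0 := by
  have h1 := (h.edge k l).2 hl
  have h2 := (h.mem (x l)).2 ⟨l, rfl⟩
  rw [inner_sub_right, h1.2, h2.2, sub_self]

theorem Quad.neg (h : Quad P v x q) {k l : Fin 4} (hl : ¬ (l = k ∨ l = k + 1)) : ⟪P.n (x l), q k - v⟫ < 0 := by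
  have h1 : q k ∉ P.face (x l) := fun h3 => hl ((h.edge k l).1 h3)
  have h2 := (h.mem (x l)).2 ⟨l, rfl⟩
  have h3 : q k ∈ P.body := ((h.edge k k).2 (Or.inl rfl)).1
  have h4 := lt_of_le_of_ne (h3 (x l)) fun h5 => h1 ⟨h3, h5⟩
  rw [inner_sub_right, h2.2]
  linarith

theorem Quad.dep (h : Quad P v x q) (μ : Fin 4 → ℝ) (hμ : ∑ k, μ k • (q k - v) = 0) (hne : μ ≠ 0) :
    0 < μ 0 * μ 2 ∧ 0 < μ 1 * μ 3 := by
  have key : ∀ l, ∑ k, μ k * ⟪P.n (x l), q k - v⟫ = 0 := by
    intro l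
    have h1 := congrArg (fun z => ⟪P.n (x l), z⟫) hμ
    simpa [inner_sum, inner_smul_right] using h1
  have k0 := key 0
  have k1 := key 1
  have k2 := key 2
  have k3 := key 3
  rw [Fin.sum_univ_four] at k0 k1 k2 k3
  rw [h.zero (k := 0) (l := 0) (by decide), h.zero (k := 3) (l := 0) (by decide)] at k0
  rw [h.zero (k := 0) (l := 1) (by decide), h.zero (k := 1) (l := 1) (by decide)] at k1
  rw [h.zero (k := 1) (l := 2) (by decide), h.zero (k := 2) (l := 2) (by decide)] at k2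
  rw [h.zero (k := 2) (l := 3) (by decide), h.zero (k := 3) (l := 3) (by decide)] at k3
  have c01 := h.neg (k := 1) (l := 0) (by decide)
  have c02 := h.neg (k := 2) (l := 0) (by decide)
  have c12 := h.neg (k := 2) (l := 1) (by decide)
  have c13 := h.neg (k := 3) (l := 1) (by decide)
  have c23 := h.neg (k := 3) (l := 2) (by decide)
  have c20 := h.neg (k := 0) (l := 2) (by decide)
  have c30 := h.neg (k := 0) (l := 3) (by decide)
  have c31 := h.neg (k := 1) (l := 3) (by decide)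
  have aux : ∀ a b c d : ℝ, c < 0 → d < 0 → a * c + b * d = 0 → a ≠ 0 → a * b < 0 ∧ b ≠ 0 := by
    intro a b c d hc hd h1 ha
    have hb : b = -(a * c) / d := by rw [eq_div_iff hd.ne]; linarith
    have h2 : a * b = -(a ^ 2 * (c / d)) := by rw [hb]; field_simp
    have h3 : 0 < a ^ 2 * (c / d) := mul_pos (by positivity) (div_pos_of_neg_of_neg hc hd)
    have h4 : a * b < 0 := by rw [h2]; linarith
    exact ⟨h4, fun h5 => by rw [h5, mul_zero] at h4; exact lt_irrefl _ h4⟩
  have m0 : μ 0 ≠ 0 := by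
    intro h0
    rw [h0] at k3 k2
    have m1 : μ 1 = 0 := by
      rcases mul_eq_zero.1 (by linarith : μ 1 * ⟪P.n (x 3), q 1 - v⟫ = 0) with h4 | h4
      · exact h4
      · exact absurd h4 c31.ne
    have m3 : μ 3 = 0 := by
      rcases mul_eq_zero.1 (by linarith : μ 3 * ⟪P.n (x 2), q 3 - v⟫ = 0) with h4 | h4
      · exact h4
      · exact absurd h4 c23.ne
    rw [m1] at k0
    have m2 : μ 2 = 0 := by
      rcases mul_eq_zero.1 (by linarith : μ 2 * ⟪P.n (x 0), q 2 - v⟫ = 0) with h4 | h4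
      · exact h4
      · exact absurd h4 c02.ne
    apply hne
    ext k
    fin_cases k
    · exact h0
    · exact m1
    · exact m2
    · exact m3
  obtain ⟨a1, m1⟩ := aux (μ 0) (μ 1) _ _ c30 c31 (by linarith) m0
  obtain ⟨a2, m2⟩ := aux (μ 1) (μ 2) _ _ c01 c02 (by linarith) m1
  obtain ⟨a3, m3⟩ := aux (μ 2) (μ 3) _ _ c12 c13 (by linarith) m2
  constructor
  · have h5 := mul_pos_of_neg_of_neg a1 a2
    have h6 : 0 < μ 1 ^ 2 := by positivity
    have h7 : μ 0 * μ 1 * (μ 1 * μ 2) = μ 1 ^ 2 * (μ 0 * μ 2) := by ring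
    rw [h7] at h5
    exact (pos_iff_pos_of_mul_pos h5).1 h6
  · have h5 := mul_pos_of_neg_of_neg a2 a3
    have h6 : 0 < μ 2 ^ 2 := by positivity
    have h7 : μ 1 * μ 2 * (μ 2 * μ 3) = μ 2 ^ 2 * (μ 1 * μ 3) := by ring
    rw [h7] at h5
    exact (pos_iff_pos_of_mul_pos h5).1 h6

theorem Quad.indep0 (h : Quad P v x q) : LinearIndependent ℝ ![q 0 - v, q 1 - v, q 2 - v] := by
  rw [Fintype.linearIndependent_iff]
  intro c hc
  rw [Fin.sum_univ_three] at hc
  by_contra hne
  push Not at hne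
  obtain ⟨i, hi⟩ := hne
  have h1 := h.dep ![c 0, c 1, c 2, 0] (by
    rw [Fin.sum_univ_four]
    simpa using hc) (fun h2 => by
      apply hi
      fin_cases i
      · exact congrFun h2 0
      · exact congrFun h2 1
      · exact congrFun h2 2)
  have h2 : (![c 0, c 1, c 2, 0] : Fin 4 → ℝ) 3 = 0 := rfl
  rw [h2, mul_zero] at h1
  exact lt_irrefl _ h1.2

theorem Quad.opp0 (h : Quad P v x q) {w : E3} (h0 : w ∈ P.face (x 0)) (h2 : w ∈ P.face (x 2)) : w = v := by
  have hsp := h.indep0.span_eq_top_of_card_eq_finrank (by rw [finrank_euclideanSpace_fin]; rfl)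
  have hw : w - v ∈ Submodule.span ℝ (Set.range ![q 0 - v, q 1 - v, q 2 - v]) := by rw [hsp]; trivial
  obtain ⟨c, hc⟩ := (Submodule.mem_span_range_iff_exists_fun ℝ).1 hw
  rw [Fin.sum_univ_three] at hc
  have hc' : c 0 • (q 0 - v) + c 1 • (q 1 - v) + c 2 • (q 2 - v) = w - v := hc
  have key : ∀ l, ⟪P.n (x l), w - v⟫ = c 0 * ⟪P.n (x l), q 0 - v⟫ + c 1 * ⟪P.n (x l), q 1 - v⟫ +
      c 2 * ⟪P.n (x l), q 2 - v⟫ := by
    intro l
    rw [← hc', inner_add_right, inner_add_right, inner_smul_right, inner_smul_right, inner_smul_right]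
  have le : ∀ l, ⟪P.n (x l), w - v⟫ ≤ 0 := by
    intro l
    rw [inner_sub_right, ((h.mem (x l)).2 ⟨l, rfl⟩).2]
    linarith [h0.1 (x l)]
  have e0 : ⟪P.n (x 0), w - v⟫ = 0 := by
    rw [inner_sub_right, ((h.mem (x 0)).2 ⟨0, rfl⟩).2, h0.2, sub_self]
  have e2 : ⟪P.n (x 2), w - v⟫ = 0 := by
    rw [inner_sub_right, ((h.mem (x 2)).2 ⟨2, rfl⟩).2, h2.2, sub_self]
  have l1 := le 1
  have l3 := le 3
  rw [key, h.zero (k := 0) (l := 0) (by decide)] at e0
  rw [key, h.zero (k := 1) (l := 2) (by decide), h.zero (k := 2) (l := 2) (by decide)] at e2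
  rw [key, h.zero (k := 0) (l := 1) (by decide), h.zero (k := 1) (l := 1) (by decide)] at l1
  rw [key, h.zero (k := 2) (l := 3) (by decide)] at l3
  have c01 := h.neg (k := 1) (l := 0) (by decide)
  have c02 := h.neg (k := 2) (l := 0) (by decide)
  have c12 := h.neg (k := 2) (l := 1) (by decide)
  have c20 := h.neg (k := 0) (l := 2) (by decide)
  have c31 := h.neg (k := 1) (l := 3) (by decide)
  have z0 : c 0 = 0 := by
    rcases mul_eq_zero.1 (by linarith : c 0 * ⟪P.n (x 2), q 0 - v⟫ = 0) with h4 | h4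
    · exact h4
    · exact absurd h4 c20.ne
  rw [z0] at l3
  have p2 : 0 ≤ c 2 := by
    by_contra hn
    push Not at hn
    nlinarith [mul_pos_of_neg_of_neg hn c12]
  have p1 : 0 ≤ c 1 := by
    by_contra hn
    push Not at hn
    nlinarith [mul_pos_of_neg_of_neg hn c31]
  have z1 : c 1 = 0 := by
    by_contra hn
    have : 0 < c 1 := lt_of_le_of_ne p1 (Ne.symm hn)
    nlinarith [mul_neg_of_pos_of_neg this c01, mul_nonpos_of_nonneg_of_nonpos p2 c02.le]
  have z2 : c 2 = 0 := by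
    rw [z1] at e0
    rcases mul_eq_zero.1 (by linarith : c 2 * ⟪P.n (x 0), q 2 - v⟫ = 0) with h4 | h4
    · exact h4
    · exact absurd h4 c02.ne
  rw [z0, z1, z2] at hc'
  have : w - v = 0 := by rw [← hc']; simp
  exact sub_eq_zero.1 this

/-- the points of a panel on one side of an edge -/
theorem side (hP : IsPolyhedron P) {i j : ι} {w p p' : E3} (hvi : v ∈ P.face i)
    (hvj : v ∈ P.face j) (hwi : w ∈ P.face i) (hwj : w ∈ P.face j) (hvw : w ≠ v) (hp : p ∈ P.face i)
    (hpj : p ∉ P.face j) (hp' : p' ∈ P.face i) (hpj' : p' ∉ P.face j) :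
    ∃ a b : ℝ, 0 < b ∧ p' - v = a • (w - v) + b • (p - v) := by
  have hlt : ∀ z ∈ P.face i, z ∉ P.face j → ⟪P.n j, z - v⟫ < 0 := by
    intro z hz hzj
    have h4 := lt_of_le_of_ne (hz.1 j) fun h5 => hzj ⟨hz.1, h5⟩
    rw [inner_sub_right, hvj.2]
    linarith
  have hw0 : ⟪P.n j, w - v⟫ = 0 := by rw [inner_sub_right, hvj.2, hwj.2, sub_self]
  have hind : LinearIndependent ℝ ![w - v, p - v] := by
    rw [LinearIndependent.pair_iff]
    intro s t hst
    have h1 := congrArg (fun z => ⟪P.n j, z⟫) hst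
    simp only [inner_add_right, inner_smul_right, inner_zero_right, hw0, mul_zero, zero_add] at h1
    have ht : t = 0 := by
      rcases mul_eq_zero.1 h1 with h | h
      · exact h
      · exact absurd h (hlt p hp hpj).ne
    rw [ht, zero_smul, add_zero] at hst
    rcases smul_eq_zero.1 hst with h | h
    · exact ⟨h, ht⟩
    · exact absurd (sub_eq_zero.1 h) hvw
  have hle : Submodule.span ℝ (Set.range ![w - v, p - v]) ≤ vectorSpan ℝ (P.face i) := by
    rw [Submodule.span_le]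
    rintro _ ⟨k, rfl⟩
    fin_cases k
    · exact vsub_mem_vectorSpan ℝ hwi hvi
    · exact vsub_mem_vectorSpan ℝ hp hvi
  have heq := Submodule.eq_of_le_of_finrank_eq hle (by
    rw [hP.dim i, finrank_span_eq_card hind]
    simp)
  have hm : p' - v ∈ Submodule.span ℝ (Set.range ![w - v, p - v]) := by
    rw [heq]; exact vsub_mem_vectorSpan ℝ hp' hvi
  obtain ⟨c, hc⟩ := (Submodule.mem_span_range_iff_exists_fun ℝ).1 hm
  rw [Fin.sum_univ_two] at hc
  have hc' : c 0 • (w - v) + c 1 • (p - v) = p' - v := hc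
  refine ⟨c 0, c 1, ?_, hc'.symm⟩
  have h1 := congrArg (fun z => ⟪P.n j, z⟫) hc'
  simp only [inner_add_right, inner_smul_right, hw0, mul_zero, zero_add] at h1
  have h2 := hlt p' hp' hpj'
  have h3 := hlt p hp hpj
  rw [← h1] at h2
  by_contra hn
  push Not at hn
  nlinarith [mul_nonneg_of_nonpos_of_nonpos hn h3.le]

/-- the change of the distance -/
noncomputable def dd (A B : E3 ≃ᵢ E3) (p q : E3) : ℝ := dist (A p) (B q) ^ 2 - dist p q ^ 2

theorem dd_inner {A B : E3 ≃ᵢ E3} {v : E3} (hv : A v = B v) (p q : E3) :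
    dd A B p q = -2 * (⟪lin A (p - v), lin B (q - v)⟫ - ⟪p - v, q - v⟫) := by
  have h1 : A p - B q = lin A (p - v) - lin B (q - v) := by
    rw [lin_sub, lin_sub, hv]; abel
  have h2 : p - q = (p - v) - (q - v) := by abel
  rw [dd, dist_eq_norm, dist_eq_norm, h1, h2, norm_sub_sq_real, norm_sub_sq_real, LinearIsometryEquiv.norm_map,
    LinearIsometryEquiv.norm_map]
  ring

theorem dd_self (A : E3 ≃ᵢ E3) (p q : E3) : dd A A p q = 0 := by
  rw [dd, A.dist_eq, sub_self]

theorem dd_symm (A B : E3 ≃ᵢ E3) (p q : E3) : dd A B p q = dd B A q p := by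
  rw [dd, dd, dist_comm (A p), dist_comm p]

theorem dd_scale {A B : E3 ≃ᵢ E3} {v w p q p' q' : E3} {a b c d : ℝ} (hv : A v = B v) (hw : A w = B w)
    (hp : p' - v = a • (w - v) + b • (p - v)) (hq : q' - v = c • (w - v) + d • (q - v)) :
    dd A B p' q' = b * d * dd A B p q := by
  have hl : lin A (w - v) = lin B (w - v) := by rw [lin_sub, lin_sub, hv, hw]
  have e1 : ⟪lin A (w - v), lin B (w - v)⟫ = ⟪w - v, w - v⟫ := by rw [hl, LinearIsometryEquiv.inner_map_map]
  have e2 : ⟪lin A (w - v), lin B (q - v)⟫ = ⟪w - v, q - v⟫ := by rw [hl, LinearIsometryEquiv.inner_map_map]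
  have e3 : ⟪lin A (p - v), lin B (w - v)⟫ = ⟪p - v, w - v⟫ := by rw [← hl, LinearIsometryEquiv.inner_map_map]
  rw [dd_inner hv, dd_inner hv, hp, hq, map_add, map_add, map_smul, map_smul, map_smul, map_smul]
  simp only [inner_add_left, inner_add_right, inner_smul_left, inner_smul_right, e1, e2, e3, conj_trivial]
  ring

theorem sign_pos_mul {c : ℝ} (hc : 0 < c) (y : ℝ) : SignType.sign (c * y) = SignType.sign y := by
  rw [sign_mul, sign_pos hc, one_mul]

/-- the sign of the change of the angle at an edge does not depend on the choice of the points -/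
theorem edge_sign (hP : IsPolyhedron P) {i j : ι} {w : E3} (hvi : v ∈ P.face i)
    (hvj : v ∈ P.face j) (hwi : w ∈ P.face i) (hwj : w ∈ P.face j) (hvw : w ≠ v) {A B : E3 ≃ᵢ E3} (hv : A v = B v)
    (hw : A w = B w) {p p' q q' : E3} (hp : p ∈ P.face i) (hpj : p ∉ P.face j) (hp' : p' ∈ P.face i)
    (hpj' : p' ∉ P.face j) (hq : q ∈ P.face j) (hqi : q ∉ P.face i) (hq' : q' ∈ P.face j) (hqi' : q' ∉ P.face i) :
    SignType.sign (dd A B p' q') = SignType.sign (dd A B p q) := by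
  obtain ⟨a, b, hb, h1⟩ := side hP hvi hvj hwi hwj hvw hp hpj hp' hpj'
  obtain ⟨c, d, hd, h2⟩ := side hP hvj hvi hwj hwi hvw hq hqi hq' hqi'
  rw [dd_scale hv hw h1 h2, sign_pos_mul (mul_pos hb hd)]

end Pool.Agent.V5helper79.PQ
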