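import Pool.Agent.V5helper79.PQ.Geo

/-!
# Project PQ: motions near a time where all panels move together
-/

set_option autoImplicit false

namespace Pool.Agent.V5helper79.PQ

open Pool.Agent.R118.PM Filter Topology
open Pool.Agent.V5helper79.PP.Fam (lin lin_sub)
open Pool.Agent.V5helper79.PP.Conv (normals_span)
open scoped RealInnerProductSpace

variable {ι : Type} [Fintype ι] {P : Pool.Agent.R118.PM.Poly ι} {v : E3} {x : Fin 4 → ι} {q : Fin 4 → E3}

theorem Quad.rotn (h : Quad P v x q) (a : Fin 4) : Quad P v (fun k => x (k + a)) (fun k => q (k + a)) := by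
  refine ⟨fun i => ?_, fun k l => ?_⟩
  · rw [h.mem]
    constructor
    · rintro ⟨k, hk⟩
      exact ⟨k - a, by rw [sub_add_cancel]; exact hk⟩
    · rintro ⟨k, hk⟩
      exact ⟨k + a, hk⟩
  · rw [h.edge]
    revert k l a
    decide

/-- the families of isometries of the panels -/
structure Fam (P : Pool.Agent.R118.PM.Poly ι) (A : ι → unitInterval → (E3 ≃ᵢ E3)) : Prop where
  cont : ∀ i z, Continuous fun t => A i t z
  hinge : ∀ i j z t, z ∈ P.face i → z ∈ P.face j → A i t z = A j t z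

variable {A : ι → unitInterval → (E3 ≃ᵢ E3)} {t0 : unitInterval}

/-- opposite signs -/
def SG (A : ι → unitInterval → (E3 ≃ᵢ E3)) (t : unitInterval) (x : Fin 4 → ι) (q : Fin 4 → E3) : Prop :=
  SignType.sign (dd (A (x 3) t) (A (x 0) t) (q 2) (q 0)) =
      - SignType.sign (dd (A (x 0) t) (A (x 1) t) (q 3) (q 1))

theorem quad_loc0 (hL : S_LOC) (h : Quad P v x q) (hA : Fam P A) (h0 : ∀ i j z, A i t0 z = A j t0 z) :
    ∀ᶠ t in 𝓝 t0, SG A t x q := by
  have hv : ∀ k, v ∈ P.face (x k) := fun k => (h.mem _).2 ⟨k, rfl⟩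
  have hq : ∀ k, q k ∈ P.face (x k) := fun k => (h.edge k k).2 (Or.inl rfl)
  have hq' : ∀ k, q k ∈ P.face (x (k + 1)) := fun k => (h.edge k (k + 1)).2 (Or.inr rfl)
  have hQ1 : ∀ t k, A (x k) t (q k) - A (x k) t v = lin (A (x k) t) (q k - v) := fun t k => (lin_sub _ _ _).symm
  have hQ2 : ∀ t k, A (x k) t (q k) - A (x k) t v = lin (A (x (k + 1)) t) (q k - v) := fun t k => by
    rw [lin_sub, hA.hinge (x k) (x (k + 1)) (q k) t (hq k) (hq' k), hA.hinge (x k) (x (k + 1)) v t (hv _) (hv _)]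
  have h1 := hL (fun k => q k - v) (fun t k => A (x k) t (q k) - A (x k) t v) t0 (fun μ hμ hne => h.dep μ hμ hne)
    (fun k => (hA.cont _ _).sub (hA.cont _ _)) (fun t k => by
      show ‖A (x k) t (q k) - A (x k) t v‖ = _
      rw [hQ1, LinearIsometryEquiv.norm_map]) (fun t k => by
      show ⟪A (x k) t (q k) - A (x k) t v, A (x (k + 1)) t (q (k + 1)) - A (x (k + 1)) t v⟫ = _
      rw [hQ2, hQ1, LinearIsometryEquiv.inner_map_map]) (by
      show ⟪A (x 0) t0 (q 0) - A (x 0) t0 v, A (x 2) t0 (q 2) - A (x 2) t0 v⟫ = _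
      rw [h0 (x 2) (x 0), h0 (x 2) (x 0), ← lin_sub, ← lin_sub, LinearIsometryEquiv.inner_map_map]) (by
      show ⟪A (x 1) t0 (q 1) - A (x 1) t0 v, A (x 3) t0 (q 3) - A (x 3) t0 v⟫ = _
      rw [h0 (x 3) (x 1), h0 (x 3) (x 1), ← lin_sub, ← lin_sub, LinearIsometryEquiv.inner_map_map])
  filter_upwards [h1] with t ht
  unfold SG
  have e30 : A (x 3) t v = A (x 0) t v := hA.hinge _ _ _ _ (hv _) (hv _)
  have e01 : A (x 0) t v = A (x 1) t v := hA.hinge _ _ _ _ (hv _) (hv _)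
  rw [dd_inner e30, dd_inner e01]
  have a3 : lin (A (x 3) t) (q 2 - v) = A (x 2) t (q 2) - A (x 2) t v := (hQ2 t 2).symm
  have a0 : lin (A (x 0) t) (q 0 - v) = A (x 0) t (q 0) - A (x 0) t v := (hQ1 t 0).symm
  have a0' : lin (A (x 0) t) (q 3 - v) = A (x 3) t (q 3) - A (x 3) t v := (hQ2 t 3).symm
  have a1 : lin (A (x 1) t) (q 1 - v) = A (x 1) t (q 1) - A (x 1) t v := (hQ1 t 1).symm
  rw [a3, a0, a0', a1, real_inner_comm (A (x 0) t (q 0) - A (x 0) t v), real_inner_comm (q 0 - v),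
    real_inner_comm (A (x 1) t (q 1) - A (x 1) t v), real_inner_comm (q 1 - v), sign_mul, sign_mul]
  have ht' : SignType.sign (⟪A (x 0) t (q 0) - A (x 0) t v, A (x 2) t (q 2) - A (x 2) t v⟫ - ⟪q 0 - v, q 2 - v⟫) =
    - SignType.sign (⟪A (x 1) t (q 1) - A (x 1) t v, A (x 3) t (q 3) - A (x 3) t v⟫ - ⟪q 1 - v, q 3 - v⟫) := ht
  rw [ht', mul_neg]

/-- there is a point of a panel which is not in another panel -/
theorem exists_off (hP : IsPolyhedron P) {i j : ι} (hij : i ≠ j) : ∃ p ∈ P.face i, p ∉ P.face j := by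
  by_contra hcon
  push Not at hcon
  have hsub : P.face i ⊆ P.face j := hcon
  have hne : (P.face i).Nonempty := by
    by_contra h
    rw [Set.not_nonempty_iff_eq_empty] at h
    have h1 := hP.dim i
    rw [h, vectorSpan_empty, finrank_bot] at h1
    omega
  obtain ⟨z, hz⟩ := hne
  have heq := Submodule.eq_of_le_of_finrank_eq (vectorSpan_mono ℝ hsub) (by rw [hP.dim i, hP.dim j])
  apply hP.inj i j hij
  refine Set.Subset.antisymm hsub fun y hy => ⟨hy.1, ?_⟩
  have h1 : y - z ∈ vectorSpan ℝ (P.face i) := by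
    rw [heq]; exact vsub_mem_vectorSpan ℝ hy (hsub hz)
  have h2 : vectorSpan ℝ (P.face i) ≤ (Submodule.span ℝ {P.n i})ᗮ := by
    rw [vectorSpan_def, Submodule.span_le]
    rintro _ ⟨a, ha, b, hb, rfl⟩
    rw [SetLike.mem_coe, Submodule.mem_orthogonal_singleton_iff_inner_right]
    show ⟪P.n i, a - b⟫ = 0
    rw [inner_sub_right, ha.2, hb.2, sub_self]
  have h3 := h2 h1
  rw [Submodule.mem_orthogonal_singleton_iff_inner_right, inner_sub_right, hz.2] at h3
  linarith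

/-- near `t0`: if the angle at an edge does not change then the two panels move together -/
theorem edge_agree (hG : S_AGR) (hP : IsPolyhedron P) (hA : Fam P A) (h0 : ∀ i j z, A i t0 z = A j t0 z) :
    ∀ᶠ t in 𝓝 t0, ∀ i j, i ≠ j → (P.face i ∩ P.face j).Nontrivial → ∀ p ∈ P.face i, p ∉ P.face j →
      ∀ q ∈ P.face j, q ∉ P.face i → SignType.sign (dd (A i t) (A j t) p q) = 0 → ∀ z, A i t z = A j t z := by
  rw [eventually_all]
  intro i
  rw [eventually_all]
  intro j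
  by_cases hij : i = j
  · exact Eventually.of_forall fun t h => absurd hij h
  by_cases hnt : (P.face i ∩ P.face j).Nontrivial
  swap
  · exact Eventually.of_forall fun t _ h => absurd h hnt
  obtain ⟨v, ⟨hvi, hvj⟩, w, ⟨hwi, hwj⟩, hvw⟩ := hnt
  obtain ⟨p, hp, hpj⟩ := exists_off hP hij
  obtain ⟨q, hq, hqi⟩ := exists_off hP (Ne.symm hij)
  have hw1 : ⟪P.n j, w - v⟫ = 0 := by rw [inner_sub_right, hvj.2, hwj.2, sub_self]
  have hw2 : ⟪P.n i, w - v⟫ = 0 := by rw [inner_sub_right, hvi.2, hwi.2, sub_self]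
  have hq1 : ⟪P.n j, q - v⟫ = 0 := by rw [inner_sub_right, hvj.2, hq.2, sub_self]
  have hp2 : ⟪P.n i, p - v⟫ = 0 := by rw [inner_sub_right, hvi.2, hp.2, sub_self]
  have hp1 : ⟪P.n j, p - v⟫ ≠ 0 := fun h => hpj ⟨hp.1, by rw [inner_sub_right, hvj.2] at h; linarith⟩
  have hq2 : ⟪P.n i, q - v⟫ ≠ 0 := fun h => hqi ⟨hq.1, by rw [inner_sub_right, hvi.2] at h; linarith⟩
  have hind : LinearIndependent ℝ ![w - v, p - v, q - v] := by
    rw [Fintype.linearIndependent_iff]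
    intro c hc
    rw [Fin.sum_univ_three] at hc
    have hc' : c 0 • (w - v) + c 1 • (p - v) + c 2 • (q - v) = 0 := hc
    have h1 := congrArg (fun z => ⟪P.n j, z⟫) hc'
    have h2 := congrArg (fun z => ⟪P.n i, z⟫) hc'
    simp only [inner_add_right, inner_smul_right, inner_zero_right, hw1, hq1, hw2, hp2, mul_zero, zero_add,
      add_zero] at h1 h2
    have c1 : c 1 = 0 := by
      rcases mul_eq_zero.1 h1 with h | h
      · exact h
      · exact absurd h hp1
    have c2 : c 2 = 0 := by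
      rcases mul_eq_zero.1 h2 with h | h
      · exact h
      · exact absurd h hq2
    rw [c1, c2, zero_smul, zero_smul, add_zero, add_zero] at hc'
    have c0 : c 0 = 0 := by
      rcases smul_eq_zero.1 hc' with h | h
      · exact h
      · exact absurd (sub_eq_zero.1 h).symm hvw
    intro k
    fin_cases k
    · exact c0
    · exact c1
    · exact c2
  filter_upwards [hG (A i) (A j) t0 (hA.cont i) (hA.cont j) (h0 i j) v w p q hind
    (fun t => hA.hinge i j v t hvi hvj) (fun t => hA.hinge i j w t hwi hwj)] with t ht _ _ p' hp' hpj' q' hq' hqi' hs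
  apply ht
  rw [edge_sign hP hvi hvj hwi hwj (Ne.symm hvw) (hA.hinge i j v t hvi hvj) (hA.hinge i j w t hwi hwj) hp hpj hp' hpj'
    hq hqi hq' hqi'] at hs
  have h1 : dd (A i t) (A j t) p q = 0 := sign_eq_zero_iff.1 hs
  rw [dd] at h1
  have h2 : dist (A i t p) (A j t q) ^ 2 = dist p q ^ 2 := by linarith
  exact (sq_eq_sq₀ dist_nonneg dist_nonneg).1 h2

/-- near `t0` the angles at two edges of one panel at a vertex of degree four change with opposite signs -/
theorem quad_sign (hL : S_LOC) (hP : IsPolyhedron P) (h : Quad P v x q) (hA : Fam P A)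
    (h0 : ∀ i j z, A i t0 z = A j t0 z) :
    ∀ᶠ t in 𝓝 t0, ∀ i j m, i ≠ j → i ≠ m → j ≠ m → v ∈ P.face i → v ∈ P.face j → v ∈ P.face m →
      ∀ w ∈ P.face i, w ∈ P.face j → w ≠ v → ∀ u ∈ P.face i, u ∈ P.face m → u ≠ v →
      ∀ p ∈ P.face i, p ∉ P.face j → ∀ p2 ∈ P.face j, p2 ∉ P.face i →
      ∀ p' ∈ P.face i, p' ∉ P.face m → ∀ p2' ∈ P.face m, p2' ∉ P.face i →
      SignType.sign (dd (A i t) (A j t) p p2) = - SignType.sign (dd (A i t) (A m t) p' p2') := by
  have hall : ∀ᶠ t in 𝓝 t0, ∀ a : Fin 4, SG A t (fun k => x (k + a)) (fun k => q (k + a)) := by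
    rw [eventually_all]
    intro a
    exact quad_loc0 hL (h.rotn a) hA h0
  filter_upwards [hall] with t ht i j m hij him hjm hi hj hm w hwi hwj hwv u hui hum huv p hp hpj p2 hp2 hp2i p' hp'
    hpm' p2' hp2' hpi2'
  obtain ⟨a, ha⟩ := (h.mem i).1 hi
  have hr := h.rotn a
  obtain ⟨y, hy⟩ : ∃ y : Fin 4 → ι, y = fun k => x (k + a) := ⟨_, rfl⟩
  obtain ⟨r, hrr⟩ : ∃ r : Fin 4 → E3, r = fun k => q (k + a) := ⟨_, rfl⟩
  rw [← hy, ← hrr] at hr
  have hta := ht a
  rw [← hy, ← hrr] at hta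
  unfold SG at hta
  have y0 : y 0 = i := by rw [hy]; show x (0 + a) = i; rw [zero_add]; exact ha
  rw [y0] at hta
  have hv : ∀ k, v ∈ P.face (y k) := fun k => (hr.mem _).2 ⟨k, rfl⟩
  have hopp : ∀ l w, l ≠ i → w ∈ P.face i → w ∈ P.face l → w ≠ v → v ∈ P.face l → l = y 1 ∨ l = y 3 := by
    intro l w hl hwi hwl hwv hvl
    obtain ⟨b, hb⟩ := (hr.mem l).1 hvl
    have hb4 : b = 0 ∨ b = 1 ∨ b = 2 ∨ b = 3 := (by decide : ∀ b : Fin 4, b = 0 ∨ b = 1 ∨ b = 2 ∨ b = 3) b
    rcases hb4 with rfl | rfl | rfl | rfl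
    · exact absurd (hb.symm.trans y0) hl
    · exact Or.inl hb.symm
    · exact absurd (hr.opp0 (by rw [y0]; exact hwi) (by rw [hb]; exact hwl)) hwv
    · exact Or.inr hb.symm
  have E1 : ∀ l w, l = y 1 → w ∈ P.face i → w ∈ P.face l → w ≠ v → ∀ p ∈ P.face i, p ∉ P.face l →
      ∀ p2 ∈ P.face l, p2 ∉ P.face i →
      SignType.sign (dd (A i t) (A l t) p p2) = SignType.sign (dd (A i t) (A (y 1) t) (r 3) (r 1)) := by
    intro l w hl hwi hwl hwv p hp hpl p2 hp2 hp2i
    subst hl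
    refine edge_sign hP hi (hv 1) hwi hwl hwv (hA.hinge _ _ _ _ hi (hv 1)) (hA.hinge _ _ _ _ hwi hwl) ?_ ?_ hp hpl ?_ ?_
      hp2 hp2i
    · rw [← y0]; exact (hr.edge 3 0).2 (by decide)
    · exact fun h1 => absurd ((hr.edge 3 1).1 h1) (by decide)
    · exact (hr.edge 1 1).2 (by decide)
    · rw [← y0]; exact fun h1 => absurd ((hr.edge 1 0).1 h1) (by decide)
  have E3' : ∀ l w, l = y 3 → w ∈ P.face i → w ∈ P.face l → w ≠ v → ∀ p ∈ P.face i, p ∉ P.face l →
      ∀ p2 ∈ P.face l, p2 ∉ P.face i →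
      SignType.sign (dd (A i t) (A l t) p p2) = SignType.sign (dd (A (y 3) t) (A i t) (r 2) (r 0)) := by
    intro l w hl hwi hwl hwv p hp hpl p2 hp2 hp2i
    subst hl
    rw [dd_symm (A (y 3) t)]
    refine edge_sign hP hi (hv 3) hwi hwl hwv (hA.hinge _ _ _ _ hi (hv 3)) (hA.hinge _ _ _ _ hwi hwl) ?_ ?_ hp hpl ?_ ?_
      hp2 hp2i
    · rw [← y0]; exact (hr.edge 0 0).2 (by decide)
    · exact fun h1 => absurd ((hr.edge 0 3).1 h1) (by decide)
    · exact (hr.edge 2 3).2 (by decide)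
    · rw [← y0]; exact fun h1 => absurd ((hr.edge 2 0).1 h1) (by decide)
  rcases hopp j w hij.symm hwi hwj hwv hj with hj' | hj' <;> rcases hopp m u him.symm hui hum huv hm with hm' | hm'
  · exact absurd (hj'.trans hm'.symm) hjm
  · rw [E1 j w hj' hwi hwj hwv p hp hpj p2 hp2 hp2i, E3' m u hm' hui hum huv p' hp' hpm' p2' hp2' hpi2', hta, neg_neg]
  · rw [E3' j w hj' hwi hwj hwv p hp hpj p2 hp2 hp2i, E1 m u hm' hui hum huv p' hp' hpm' p2' hp2' hpi2', hta]
  · exact absurd (hj'.trans hm'.symm) hjm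

end Pool.Agent.V5helper79.PQ
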