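import Pool.Agent.R118.PM.Main
import Pool.Agent.V5helper79.PP.Fam

/-!
# Project PQ: polyhedra with vertices of degree at most four (statements)
-/

set_option autoImplicit false

namespace Pool.Agent.V5helper79.PQ

open Pool.Agent.R118.PM Filter Topology
open scoped RealInnerProductSpace

/-- LOC. Proof: for every `t` there is a unit vector `μ` with `∑ μ k • Q t k = 0` (four vectors of a space of
dimension three). At `t0` all scalar products of the `Q t0 k` are those of the `q k`, so
`‖∑ μ k • Q t0 k‖ = ‖∑ μ k • q k‖`, so a unit vector `μ` with `∑ μ k • Q t0 k = 0` satisfies `0 < μ 0 * μ 2` and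
`0 < μ 1 * μ 3`. The set `K` of the unit vectors `μ` which do not satisfy this is compact and `∑ μ k • Q t0 k ≠ 0` on `K`,
so `∑ μ k • Q t k ≠ 0` on `K` for `t` near `t0` (`IsCompact.eventually_forall_of_forall_eventually`); so for `t` near
`t0` there is `μ` with `∑ μ k • Q t k = 0`, `0 < μ 0 * μ 2`, `0 < μ 1 * μ 3`. Put
`A = ⟪Q t 0, Q t 2⟫ - ⟪q 0, q 2⟫`, `B = ⟪Q t 1, Q t 3⟫ - ⟪q 1, q 3⟫`. Then
`0 ≤ ‖∑ μ k • q k‖ ^ 2 = ‖∑ μ k • q k‖ ^ 2 - ‖∑ μ k • Q t k‖ ^ 2 = - 2 μ 0 μ 2 A - 2 μ 1 μ 3 B`, and with a `ν ≠ 0` such that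
`∑ ν k • q k = 0`, `0 ≤ ‖∑ ν k • Q t k‖ ^ 2 = 2 ν 0 ν 2 A + 2 ν 1 ν 3 B`. So `A`, `B` are both `0` or have opposite signs. -/
def S_LOC : Prop :=
  ∀ (q : Fin 4 → E3) (Q : unitInterval → Fin 4 → E3) (t0 : unitInterval),
    (∀ μ : Fin 4 → ℝ, ∑ k, μ k • q k = 0 → μ ≠ 0 → 0 < μ 0 * μ 2 ∧ 0 < μ 1 * μ 3) →
    (∀ k, Continuous fun t => Q t k) → (∀ t k, ‖Q t k‖ = ‖q k‖) →
    (∀ t k, ⟪Q t k, Q t (k + 1)⟫ = ⟪q k, q (k + 1)⟫) →
    ⟪Q t0 0, Q t0 2⟫ = ⟪q 0, q 2⟫ → ⟪Q t0 1, Q t0 3⟫ = ⟪q 1, q 3⟫ →
    ∀ᶠ t in 𝓝 t0, SignType.sign (⟪Q t 0, Q t 2⟫ - ⟪q 0, q 2⟫) = - SignType.sign (⟪Q t 1, Q t 3⟫ - ⟪q 1, q 3⟫)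

/-- AGR. Proof: `u = lin (A t)⁻¹ (B t q - B t v)` has the scalar products with `w - v`, `p - v` and the norm of
`q - v`, so by `Fam.two_values` (see the proof of `Fam.fam_agree`) the distance of `B t q` and `A t q` is `0` or `2 ‖z1‖`,
where `z1 ≠ 0` is the component of `q - v` orthogonal to `w - v`, `p - v`; for `t` near `t0` it is less than `2 ‖z1‖`, so
`A t q = B t q`; so `lin (A t)`, `lin (B t)` agree at `w - v`, `q - v`. In the same way (roles of `p` and `q` exchanged, or:
`⟪lin (B t) (p - v), lin (A t) u⟫` for `u = w - v, q - v` is `⟪p - v, u⟫`) `A t p = B t p` for `t` near `t0`.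
So `lin (A t)` and `lin (B t)` agree on a basis. -/
def S_AGR : Prop :=
  ∀ (A B : unitInterval → E3 ≃ᵢ E3) (t0 : unitInterval), (∀ x, Continuous fun t => A t x) →
    (∀ x, Continuous fun t => B t x) → (∀ x, A t0 x = B t0 x) → ∀ v w p q : E3,
    LinearIndependent ℝ ![w - v, p - v, q - v] → (∀ t, A t v = B t v) → (∀ t, A t w = B t w) →
    ∀ᶠ t in 𝓝 t0, dist (A t p) (B t q) = dist p q → ∀ x, A t x = B t x

/-- CON (the graph of a polyhedron is connected). Vertices = extreme points of `P.body`. Proof: (1) all vertices in one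
panel `i` are in `G` or none of them: let `v0` be in `face i`, `W = (ℝ ∙ P.n i)ᗮ` (dimension 2, `P.n i ≠ 0`),
`K = {y : W | v0 + y ∈ P.face i}` (convex, bounded, with interior points by `hP.dim`; its frontier is preconnected by
`frontier_sdiff_preconnected` (Plane.lean), applied as in `Pool.Agent.V5helper79.PP.Conv.frontier_pre` with an interior
point `p`). Every point of the frontier lies in some `face j`, `j ≠ i` (otherwise all the other inequalities are strict).
For `j ≠ i` the vertices in `face i ∩ face j` are all in `G` or all not in `G` (hypothesis). Let `SA`, `SB` be the unions of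
the `face i ∩ face j`, `j ≠ i`, which contain a vertex in `G`, resp. a vertex not in `G`: closed, and they cover the
frontier, because a nonempty `face i ∩ face j` contains a vertex (Krein-Milman, see the end of
`Pool.Agent.V5helper79.PP.Conv.simple_glued`); a common point of `SA` and `SB` lies in `face i ∩ face j ∩ face k`, which
contains a vertex, contradiction; every vertex in `face i` lies in the frontier (an interior point of `K` is not extreme
in `face i`). (2) By (1) the panels are of two types; the union of each type is closed, they cover the frontier of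
the body, which is connected (`frontier_pre`), and a common point gives a common vertex of two panels of different
types (as in `simple_glued`). -/
def S_CON : Prop :=
  ∀ {ι : Type} [Fintype ι] (P : Pool.Agent.R118.PM.Poly ι), IsPolyhedron P → ∀ G : Set E3,
    (∀ v ∈ P.body.extremePoints ℝ, ∀ w ∈ P.body.extremePoints ℝ, ∀ i j : ι, i ≠ j →
      v ∈ P.face i ∩ P.face j → w ∈ P.face i ∩ P.face j → v ∈ G → w ∈ G) →
    (∃ v ∈ P.body.extremePoints ℝ, v ∈ G) → ∀ w ∈ P.body.extremePoints ℝ, w ∈ G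

end Pool.Agent.V5helper79.PQ
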